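import Mathlib
import Pool.Agent.TH681.QC.RateTup
import Pool.Agent.W245.PB.PLog

/-!
# `p`-adic Schanuel conjecture: the logarithms of tuples of integers, with few exceptions

For all `k`, `D`, `N` there is a constant `C` such that for every `x ≥ 16` and every prime `p`
the following holds: if `W` is a `ℚ̄`-subspace of the algebraic closure of `ℚ_p` of dimension at
most `N`, then for all but `C x ^ k (log log x) ^ C / log x` of the `k`-tuples of integers in
`[1, x]` the `p`-adic logarithms `log_p a_1, …, log_p a_k` satisfy no nontrivial polynomial relation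
with coefficients in `W` and of degree at most `D` in each variable.
-/

namespace Pool.Agent.Results.MP_c50dba_nt.AlmostAllTuplesRate

open Module

/-- `L` is the Iwasawa `p`-adic logarithm on the algebraic closure of `ℚ_p`. -/
def IsIwasawaLog (p : ℕ) [Fact p.Prime] (L : PadicAlgCl p → PadicAlgCl p) : Prop :=
  (∀ x y : PadicAlgCl p, x ≠ 0 → y ≠ 0 → L (x * y) = L x + L y) ∧
  L ((p : ℕ) : PadicAlgCl p) = 0 ∧
  ∀ z : PadicAlgCl p, ‖z‖ < 1 →
    HasSum (fun n : ℕ => (-1 : PadicAlgCl p) ^ n * z ^ (n + 1) / ((n : PadicAlgCl p) + 1))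
      (L (1 + z))

open Classical in
/-- **Main result.** -/
theorem result (k D N : ℕ) :
    ∃ C : ℕ, ∀ x : ℕ, 16 ≤ x → ∀ (p : ℕ) [Fact p.Prime] (L : PadicAlgCl p → PadicAlgCl p),
      IsIwasawaLog p L → ∀ W : Submodule (algebraicClosure ℚ (PadicAlgCl p)) (PadicAlgCl p),
      Module.Finite (algebraicClosure ℚ (PadicAlgCl p)) W →
      finrank (algebraicClosure ℚ (PadicAlgCl p)) W ≤ N →
      (((Fintype.piFinset fun _ : Fin k => Finset.Icc 1 x).filter fun a =>
        ¬ ∀ Q : MvPolynomial (Fin k) (PadicAlgCl p), (∀ i, Q.degreeOf i ≤ D) →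
          (∀ s, Q.coeff s ∈ W) → MvPolynomial.eval (fun i => L (a i : PadicAlgCl p)) Q = 0 →
            Q = 0).card : ℝ) ≤
        C * Real.log (Real.log x) ^ C / Real.log x * (x : ℝ) ^ k := by
  obtain ⟨C, hC⟩ := Pool.Agent.TH681.QC.rate_tup k N D
  refine ⟨C, fun x hx p _ L hL W hWf hWN => ?_⟩
  have hL' : Pool.Agent.W245.PB.IsIwasawaLog p L := ⟨hL.1, hL.2.1, hL.2.2⟩
  apply hC x hx (Pool.Agent.W245.PB.QbarP p) (PadicAlgCl p) (fun n : ℕ => L (n : PadicAlgCl p))
    hL'.logLike W hWf hWN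
  · intro a ha
    have h1 := (Finset.mem_filter.1 ha).1
    exact h1
  · intro a ha hno
    apply (Finset.mem_filter.1 ha).2
    intro Q hdeg hW h0
    exact hno.poly Q hdeg hW h0

end Pool.Agent.Results.MP_c50dba_nt.AlmostAllTuplesRate
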