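import Pool.Agent.W254.PA.App

/-!
# `p`-adic Schanuel conjecture: relations linear in the logarithms, with polynomial coefficients

Let `t_1, ..., t_n` be arbitrary elements of the algebraic closure of `ℚ_p` (for example values of the
`p`-adic logarithm) and let `λ_s`, `s ∈ ι`, be values of the Iwasawa logarithm at algebraic numbers,
linearly independent over `ℚ`. There is a set `E` of at most `(4D)^n - 2^n` indices such that there is
no nontrivial relation `P_0(t) + ∑ P_s(t) λ_s = 0`, with polynomials `P_0, P_s` with algebraic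
coefficients and of degree at most `D` in each of the `n` variables, in which the `λ_s` with `s ∈ E` do
not occur: all the coefficients `P_0(t)`, `P_s(t)` of such a relation are zero. The bound depends neither
on `p` nor on the `t_i` nor on the family of the logarithms, which may be infinite.

The proof is based on the `p`-adic hyperplane case of the linear subgroup theorem of Waldschmidt and
Roy and on Brumer's theorem (starting files `Pool.Agent.W254.PA` and `Pool.Agent.W245.PB`).
-/

set_option autoImplicit false

namespace Pool.Agent.Results.MP_c50dba_nt.FewExceptionalLogs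

open MvPolynomial

/-- `L` is the Iwasawa `p`-adic logarithm on the algebraic closure of `ℚ_p`. -/
def IsIwasawaLog (p : ℕ) [Fact p.Prime] (L : PadicAlgCl p → PadicAlgCl p) : Prop :=
  (∀ x y : PadicAlgCl p, x ≠ 0 → y ≠ 0 → L (x * y) = L x + L y) ∧
  L ((p : ℕ) : PadicAlgCl p) = 0 ∧
  ∀ z : PadicAlgCl p, ‖z‖ < 1 →
    HasSum (fun n : ℕ => (-1 : PadicAlgCl p) ^ n * z ^ (n + 1) / ((n : PadicAlgCl p) + 1))
      (L (1 + z))

/-- The algebraic numbers in the algebraic closure of `ℚ_p`. -/
noncomputable abbrev Qb (p : ℕ) [Fact p.Prime] : IntermediateField ℚ (PadicAlgCl p) :=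
  algebraicClosure ℚ (PadicAlgCl p)

/-- **Main result.** For arbitrary `t_1, ..., t_n` all but at most `(4D)^n - 2^n` of the logarithms
`L (α s)` of any family which is linearly independent over `ℚ` satisfy, together with `1`, no
nontrivial linear relation whose coefficients are values at `t` of polynomials of degree at most `D`
in each variable. -/
theorem result (p : ℕ) [Fact p.Prime] (L : PadicAlgCl p → PadicAlgCl p) (hL : IsIwasawaLog p L)
    (n D : ℕ) (t : Fin n → PadicAlgCl p) (ι : Type) (α : ι → PadicAlgCl p) (hα0 : ∀ s, α s ≠ 0)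
    (hα : ∀ s, IsAlgebraic ℚ (α s)) (hli : LinearIndependent ℚ fun s => L (α s)) :
    ∃ E : Finset ι, E.card ≤ (4 * D) ^ n - 2 ^ n ∧
      ∀ (P₀ : MvPolynomial (Fin n) (Qb p)) (P : ι →₀ MvPolynomial (Fin n) (Qb p)),
        (∀ m ∈ P₀.support, ∀ i, m i ≤ D) → (∀ s, ∀ m ∈ (P s).support, ∀ i, m i ≤ D) →
        (∀ s ∈ E, aeval t (P s) = 0) →
        aeval t P₀ + P.sum (fun s R => aeval t R * L (α s)) = 0 →
        aeval t P₀ = 0 ∧ ∀ s, aeval t (P s) = 0 := by
  have hL' : Pool.Agent.W245.PB.IsIwasawaLog p L := ⟨hL.1, hL.2.1, hL.2.2⟩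
  exact Pool.Agent.W254.PA.gen_logsP hL' t D α hα0 hα hli

end Pool.Agent.Results.MP_c50dba_nt.FewExceptionalLogs
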