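import Pool.Agent.W254.PA.App

/-!
# `p`-adic Schanuel conjecture: one fixed logarithm

Let `λ_0` and `λ_s`, `s ∈ ι`, be values of the Iwasawa logarithm at algebraic numbers, linearly
independent over `ℚ`, and let `D ≥ 1`. There is a set `E` of at most `4 D - 4` indices `s` (of at most
one index for `D = 1`) such that `λ_0` and the `λ_s` satisfy no nontrivial polynomial relation
`P(λ_0, (λ_s)) = 0` with algebraic coefficients which is of degree at most `D` in `λ_0` and linear in the
`λ_s`, `s ∉ E` (every monomial contains at most one of them, with exponent `1`, and none with `s` in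
`E`). In particular, for every fixed `λ_0` all but at most `4 D - 4` of the `λ_s` are not rational
functions of degree at most `D` in `λ_0` with algebraic coefficients.

The proof is based on the `p`-adic hyperplane case of the linear subgroup theorem of Waldschmidt and
Roy and on Brumer's theorem (starting files `Pool.Agent.W254.PA` and `Pool.Agent.W245.PB`).
-/

set_option autoImplicit false

namespace Pool.Agent.Results.MP_c50dba_nt.FixedLogarithm

open MvPolynomial

/-- `L` is the Iwasawa `p`-adic logarithm on the algebraic closure of `ℚ_p`. -/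
def IsIwasawaLog (p : ℕ) [Fact p.Prime] (L : PadicAlgCl p → PadicAlgCl p) : Prop :=
  (∀ x y : PadicAlgCl p, x ≠ 0 → y ≠ 0 → L (x * y) = L x + L y) ∧
  L ((p : ℕ) : PadicAlgCl p) = 0 ∧
  ∀ z : PadicAlgCl p, ‖z‖ < 1 →
    HasSum (fun n : ℕ => (-1 : PadicAlgCl p) ^ n * z ^ (n + 1) / ((n : PadicAlgCl p) + 1))
      (L (1 + z))

/-- The algebraic numbers in the algebraic closure of `ℚ_p`. -/
noncomputable abbrev Qb (p : ℕ) [Fact p.Prime] : IntermediateField ℚ (PadicAlgCl p) :=
  algebraicClosure ℚ (PadicAlgCl p)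

/-- **Main result.** The index `none` stands for the fixed logarithm. -/
theorem result (p : ℕ) [Fact p.Prime] (L : PadicAlgCl p → PadicAlgCl p) (hL : IsIwasawaLog p L)
    (D : ℕ) (hD : 1 ≤ D) (ι : Type) (α : Option ι → PadicAlgCl p)
    (hα0 : ∀ i, α i ≠ 0) (hα : ∀ i, IsAlgebraic ℚ (α i))
    (hli : LinearIndependent ℚ (fun o : Option ι => L (α o))) :
    ∃ E : Finset ι, E.card ≤ max 1 (4 * D - 4) ∧
      ∀ P : MvPolynomial (Option ι) (Qb p),
      (∀ m ∈ P.support, m none ≤ D ∧ ((∀ s, m (some s) = 0) ∨
        ∃ s, s ∉ E ∧ m (some s) = 1 ∧ ∀ s', s' ≠ s → m (some s') = 0)) →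
      aeval (fun o : Option ι => L (α o)) P = 0 → P = 0 := by
  have hL' : Pool.Agent.W245.PB.IsIwasawaLog p L := ⟨hL.1, hL.2.1, hL.2.2⟩
  exact Pool.Agent.W254.PA.fixed_logP hL' D hD α hα0 hα hli

end Pool.Agent.Results.MP_c50dba_nt.FixedLogarithm
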