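import Mathlib
import Pool.Agent.TH812.SF.InstP

/-!
# `p`-adic Schanuel conjecture: almost no tuple has a relation with mixed squarefree monomials

Let `𝓛_p(γ)` be the space of all linear combinations, with algebraic coefficients, of `1`, of `g`
given elements of the algebraic closure of `ℚ_p` and of all values of the Iwasawa logarithm at
algebraic numbers.  Let `λ_1, ..., λ_n` be any `p`-adic logarithms of algebraic numbers which are
linearly independent over `ℚ`.  For all but `K n ^ (k - 1 / D)` of the `n ^ k` tuples `s`, every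
polynomial `P` with algebraic coefficients, whose mixed monomials are squarefree and whose pure
monomials have degree at most `D`, and which takes at `(λ_(s 1), ..., λ_(s k))` a value in
`𝓛_p(γ)`, has no mixed monomials.  More generally the coefficients of `P` may be taken from any space
`U ∋ 1` of dimension at most `N` over the algebraic numbers; then the exponent is
`k - 1 / ((D - 1) N + 1)`.  The constant depends on `k, D, N, g` only and not on `p`.

The proof combines the `p`-adic hyperplane case of the linear subgroup theorem of Waldschmidt and Roy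
(proved in the starting files `Pool.Agent.W254.PA`), Brumer's theorem (`Pool.Agent.W245.PB`), an
induction on the length of the tuple and a removal of the pure powers along blocks of tuples with a
common entry (`Pool.Agent.TH812.SF`).
-/

set_option autoImplicit false

namespace Pool.Agent.Results.MP_c50dba_nt.OnlyDiagonalRelations

/-- `L` is the Iwasawa logarithm on the algebraic closure of `ℚ_p`. -/
structure IsIwasawaLog (p : ℕ) [Fact p.Prime] (L : PadicAlgCl p → PadicAlgCl p) : Prop where
  mul : ∀ x y : PadicAlgCl p, x ≠ 0 → y ≠ 0 → L (x * y) = L x + L y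
  prime : L ((p : ℕ) : PadicAlgCl p) = 0
  ser : ∀ z : PadicAlgCl p, ‖z‖ < 1 →
    HasSum (fun n : ℕ => (-1 : PadicAlgCl p) ^ n * z ^ (n + 1) / ((n : PadicAlgCl p) + 1))
      (L (1 + z))

/-- The space of all linear combinations with algebraic coefficients of `1`, of the numbers `γ j` and
of the values of `L` at algebraic numbers. -/
noncomputable def LinForms {p : ℕ} [Fact p.Prime] (L : PadicAlgCl p → PadicAlgCl p) {g : ℕ}
    (γ : Fin g → PadicAlgCl p) : Submodule (algebraicClosure ℚ (PadicAlgCl p)) (PadicAlgCl p) :=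
  Submodule.span (algebraicClosure ℚ (PadicAlgCl p))
    ({1} ∪ {z | ∃ α : PadicAlgCl p, α ≠ 0 ∧ IsAlgebraic ℚ α ∧ z = L α} ∪ Set.range γ)

/-- There is a polynomial `P` with coefficients in `U`, all of whose monomials are squarefree or
pure powers of a variable of degree at most `D`, in which at least one monomial with two or more
variables occurs, and which takes at `y` a value in `LinForms L γ`. -/
def HasMixedRelation {p : ℕ} [Fact p.Prime] (L : PadicAlgCl p → PadicAlgCl p) (D : ℕ) {k g : ℕ}
    (U : Submodule (algebraicClosure ℚ (PadicAlgCl p)) (PadicAlgCl p)) (γ : Fin g → PadicAlgCl p)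
    (y : Fin k → PadicAlgCl p) : Prop :=
  ∃ P : MvPolynomial (Fin k) (PadicAlgCl p), (∀ m, P.coeff m ∈ U) ∧
    (∀ m ∈ P.support, (∀ i, m i ≤ 1) ∨ ∃ i b, b ≤ D ∧ m = Finsupp.single i b) ∧
    MvPolynomial.eval y P ∈ LinForms L γ ∧ ∃ m ∈ P.support, 2 ≤ m.support.card

open Classical in
/-- **Main result.** -/
theorem result (k D N g : ℕ) (hD : 1 ≤ D) :
    ∃ K : ℝ, ∀ (p : ℕ) [Fact p.Prime] (L : PadicAlgCl p → PadicAlgCl p), IsIwasawaLog p L →
      ∀ (n : ℕ) (l : Fin n → PadicAlgCl p),
      (∀ i, ∃ α : PadicAlgCl p, α ≠ 0 ∧ IsAlgebraic ℚ α ∧ l i = L α) →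
      LinearIndependent ℚ l →
      ∀ (γ : Fin g → PadicAlgCl p)
        (U : Submodule (algebraicClosure ℚ (PadicAlgCl p)) (PadicAlgCl p)),
        FiniteDimensional (algebraicClosure ℚ (PadicAlgCl p)) U →
        Module.finrank (algebraicClosure ℚ (PadicAlgCl p)) U ≤ N → (1 : PadicAlgCl p) ∈ U →
        ((Finset.univ.filter fun s : Fin k → Fin n =>
          HasMixedRelation L D U γ fun i => l (s i)).card : ℝ) ≤
        K * (n : ℝ) ^ ((k : ℝ) - 1 / (((D - 1) * N + 1 : ℕ) : ℝ)) := by
  refine ⟨Pool.Agent.TH812.SF.KK (D - 1) N g k + 1,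
    fun p _ L hL n l hl hli γ U hUf hUN hU1 => ?_⟩
  have hL' : Pool.Agent.W245.PB.IsIwasawaLog p L := ⟨hL.1, hL.2, hL.3⟩
  refine le_trans ?_ (Pool.Agent.TH812.SF.main_P hL' k D N g n hD l hl hli γ U hUf hUN hU1)
  apply Nat.cast_le.mpr
  apply Finset.card_le_card
  intro s hs
  rw [Finset.mem_filter] at hs ⊢
  obtain ⟨hs1, P, h1, h2, h3, h4⟩ := hs
  have h5 : LinForms L γ = Pool.Agent.W254.PA.LtE (Pool.Agent.W254.PA.logs L) ⊔
      Submodule.span (algebraicClosure ℚ (PadicAlgCl p)) (Set.range γ) := by
    rw [LinForms, Pool.Agent.W254.PA.LtE, Submodule.span_union]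
    rfl
  rw [h5] at h3
  exact ⟨hs1, P, h1, h2, h3, h4⟩

end Pool.Agent.Results.MP_c50dba_nt.OnlyDiagonalRelations
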